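import Mathlib
import Pool.Agent.TSH.TD

set_option autoImplicit false

/-!
# SQS / Fm: primes `k ^ 2 - T + h`, first moment over `h`, one block
-/

namespace Pool.Agent.SQS

open Finset Filter
open Pool.Agent.TSH (r1)

/-- squares in a short interval -/
theorem sq_int {X0 a H T : ℕ} (hX0 : 1 ≤ X0) (S : Finset ℕ)
    (hS : ∀ s ∈ S, ∃ k, X0 ≤ k ∧ k ^ 2 = s + T)
    (hI : ∀ s ∈ S, a ≤ s ∧ s ≤ a + H) : S.card ≤ H / X0 + 1 := by
  classical
  choose! κ hκ using hS
  rcases S.eq_empty_or_nonempty with rfl | hne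
  · simp
  have hinj : Set.InjOn κ S := by
    intro s hs t ht h
    have e1 := (hκ s hs).2
    have e2 := (hκ t ht).2
    rw [h] at e1
    omega
  have hne' : (S.image κ).Nonempty := hne.image κ
  obtain ⟨k0, hk0⟩ : ∃ k0 : ℕ, k0 = (S.image κ).min' hne' := ⟨_, rfl⟩
  have hsub : S.image κ ⊆ Icc k0 (k0 + H / X0) := by
    intro k hk
    have h1 : k0 ≤ k := by
      rw [hk0]
      exact Finset.min'_le _ _ hk
    have h2 := (S.image κ).min'_mem hne'
    rw [← hk0] at h2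
    obtain ⟨s0, hs0, hs0k⟩ := Finset.mem_image.1 h2
    obtain ⟨s, hs, hsk⟩ := Finset.mem_image.1 hk
    have e1 := (hκ s hs).2
    have e2 := (hκ s0 hs0).2
    have e3 := (hκ s hs).1
    rw [hsk] at e1 e3
    rw [hs0k] at e2
    have e4 := hI s hs
    have e5 := hI s0 hs0
    rw [mem_Icc]
    refine ⟨h1, ?_⟩
    obtain ⟨d, hd⟩ := Nat.exists_eq_add_of_le h1
    have h3 : d * X0 ≤ H := by
      have h4 : k ^ 2 = k0 ^ 2 + d * (k0 + k) := by
        rw [hd]
        ring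
      have h5 : d * X0 ≤ d * (k0 + k) := Nat.mul_le_mul_left _ (by omega)
      refine h5.trans ?_
      rw [e1, e2] at h4
      generalize d * (k0 + k) = u at h4 ⊢
      omega
    have h4 : d ≤ H / X0 := (Nat.le_div_iff_mul_le hX0).2 h3
    rw [hd]
    exact Nat.add_le_add_left h4 _
  calc S.card = (S.image κ).card := (Finset.card_image_of_injOn hinj).symm
    _ ≤ (Icc k0 (k0 + H / X0)).card := Finset.card_le_card hsub
    _ = H / X0 + 1 := by
        rw [Nat.card_Icc]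
        generalize H / X0 = u
        omega

/-- first moment, combinatorial part, all short windows -/
theorem win (S : Finset ℕ) (M H w : ℕ) (hw : w ≤ H) :
    ∑ s ∈ S, ∑ x ∈ Ioc M (M + (H - w)),
      (((Ioc (s + x) (s + x + w)).filter Nat.Prime).card : ℝ) ≤
      w * ∑ h ∈ Ioc M (M + H), (r1 S h : ℝ) := by
  classical
  have h1 : ∑ h ∈ Ioc M (M + H), (r1 S h : ℝ) =
      ∑ s ∈ S, (((Ioc M (M + H)).filter (fun h => (s + h).Prime)).card : ℝ) := by
    have e1 : ∀ h : ℕ, (r1 S h : ℝ) = ∑ s ∈ S, if (s + h).Prime then (1 : ℝ) else 0 := by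
      intro h
      unfold r1
      rw [Finset.card_filter]
      push_cast
      rfl
    simp only [e1]
    rw [Finset.sum_comm]
    apply Finset.sum_congr rfl
    intro s _
    rw [Finset.card_filter]
    push_cast
    rfl
  rw [h1, Finset.mul_sum]
  apply Finset.sum_le_sum
  intro s _
  have h2 : ∀ x : ℕ, (((Ioc (s + x) (s + x + w)).filter Nat.Prime).card : ℝ) =
      ∑ j ∈ Ioc 0 w, if (s + x + j).Prime then (1 : ℝ) else 0 := by
    intro x
    have e1 : Ioc (s + x) (s + x + w) = (Ioc 0 w).map (addLeftEmbedding (s + x)) := by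
      rw [Finset.map_add_left_Ioc, Nat.add_zero]
    rw [Finset.card_filter, e1, Finset.sum_map]
    push_cast
    rfl
  simp only [h2]
  rw [Finset.sum_comm]
  have h3 : ∀ j ∈ Ioc 0 w, ∑ x ∈ Ioc M (M + (H - w)), (if (s + x + j).Prime then (1 : ℝ) else 0) ≤
      (((Ioc M (M + H)).filter (fun h => (s + h).Prime)).card : ℝ) := by
    intro j hj
    rw [mem_Ioc] at hj
    have e1 : ∑ x ∈ Ioc M (M + (H - w)), (if (s + x + j).Prime then (1 : ℝ) else 0) =
        (((Ioc M (M + (H - w))).filter (fun x => (s + x + j).Prime)).card : ℝ) := by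
      rw [Finset.card_filter]
      push_cast
      rfl
    rw [e1]
    norm_cast
    apply Finset.card_le_card_of_injOn (fun x => x + j)
    · intro x hx
      rw [Finset.mem_coe, mem_filter, mem_Ioc] at hx
      rw [Finset.mem_coe, mem_filter, mem_Ioc]
      beta_reduce
      refine ⟨⟨by omega, by omega⟩, ?_⟩
      rw [← Nat.add_assoc]
      exact hx.2
    · intro a _ b _ hab
      simp only at hab
      omega
  refine (Finset.sum_le_sum h3).trans ?_
  rw [Finset.sum_const, Nat.card_Ioc, nsmul_eq_mul, Nat.sub_zero]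

/-- first moment for one block -/
theorem first1sq (hGap : Pool.Agent.SI.St_Gap) : ∃ c₁ : ℝ, 0 < c₁ ∧
    ∀ A : ℕ, ∀ᶠ Y : ℕ in atTop, ∀ (S : Finset ℕ) (T : ℕ), (∀ s ∈ S, ∃ k, k ^ 2 = s + T) →
      (∀ s ∈ S, Y ≤ s ∧ 2 * s ≤ 3 * Y) →
      Real.sqrt Y / Real.log Y ^ A ≤ S.card → ∀ M H : ℕ, Real.sqrt Y ≤ H →
      2 * (M + H) ≤ Y →
      c₁ * S.card * H / Real.log Y ≤ ∑ h ∈ Ioc M (M + H), (r1 S h : ℝ) := by
  classical
  obtain ⟨c₀, hc₀, hgap⟩ := hGap
  refine ⟨c₀ / 4, by positivity, fun A => ?_⟩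
  obtain ⟨X₀, hX₀⟩ := hgap (1 / 8) (A + 1) (by norm_num) (by norm_num)
  have hrT : Tendsto (fun X : ℕ => (X : ℝ) ^ (1 / 8 : ℝ)) atTop atTop :=
    (tendsto_rpow_atTop (by norm_num)).comp tendsto_natCast_atTop_atTop
  filter_upwards [eventually_ge_atTop X₀, eventually_ge_atTop 4,
    (Real.tendsto_log_atTop.comp tendsto_natCast_atTop_atTop).eventually_ge_atTop (64 : ℝ),
    hrT.eventually_ge_atTop 8] with
    Y hYX hY4 hlog hr8 S T hST hS hSc M H hH hMH
  have hlog : 64 ≤ Real.log Y := hlog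
  have hY' : (4 : ℝ) ≤ Y := by exact_mod_cast hY4
  have hY0 : (0 : ℝ) < Y := by linarith
  have hlog0 : 0 < Real.log Y := by linarith
  have hsq : Real.sqrt Y * Real.sqrt Y = Y := Real.mul_self_sqrt hY0.le
  have hsq0 : 0 < Real.sqrt Y := Real.sqrt_pos.2 hY0
  obtain ⟨h₀, hh₀⟩ : ∃ h₀ : ℝ, h₀ = (Y : ℝ) ^ (1 / 4 + 1 / 8 : ℝ) := ⟨_, rfl⟩
  have hh1 : 1 ≤ h₀ := by
    rw [hh₀]
    exact Real.one_le_rpow (by linarith) (by norm_num)
  have hh8 : 8 * h₀ ≤ Real.sqrt Y := by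
    have e1 : Real.sqrt Y = (Y : ℝ) ^ (1 / 8 : ℝ) * h₀ := by
      rw [hh₀, Real.sqrt_eq_rpow, ← Real.rpow_add hY0]
      norm_num
    rw [e1]
    exact mul_le_mul_of_nonneg_right hr8 (by linarith)
  obtain ⟨w, hw⟩ : ∃ w : ℕ, w = ⌈h₀⌉₊ := ⟨_, rfl⟩
  have hw1 : h₀ ≤ w := by rw [hw]; exact Nat.le_ceil _
  have hw2 : (w : ℝ) ≤ 2 * h₀ := by
    have := Nat.ceil_lt_add_one (show 0 ≤ h₀ by linarith)
    rw [← hw] at this
    linarith
  have hw4 : 4 * (w : ℝ) ≤ H := by linarith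
  have hwH : w ≤ H := by
    have : (w : ℝ) ≤ H := by linarith [Nat.cast_nonneg (α := ℝ) w]
    exact_mod_cast this
  obtain ⟨X0, hX0⟩ : ∃ X0 : ℕ, X0 = Nat.sqrt Y := ⟨_, rfl⟩
  have hX0a : X0 ^ 2 ≤ Y := by
    rw [hX0]
    exact Nat.sqrt_le' Y
  have hX0b : Y < (X0 + 1) ^ 2 := by
    rw [hX0]
    exact Nat.lt_succ_sqrt' Y
  have hX01 : 1 ≤ X0 := by
    by_contra hcon
    have : X0 = 0 := by omega
    rw [this] at hX0b
    omega
  have hX0r : Real.sqrt Y ≤ 2 * X0 := by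
    have e1 : Real.sqrt Y ≤ (X0 : ℝ) + 1 := by
      rw [Real.sqrt_le_left (by positivity)]
      exact_mod_cast hX0b.le
    have e2 : (1 : ℝ) ≤ X0 := by exact_mod_cast hX01
    linarith
  have hX0s : (X0 : ℝ) ≤ Real.sqrt Y := by
    rw [Real.le_sqrt (by positivity) hY0.le]
    exact_mod_cast hX0a
  obtain ⟨cnt, hcnt⟩ : ∃ cnt : ℕ → ℝ, cnt = fun y => (((Icc Y (3 * Y)).filter
    (fun p : ℕ => p.Prime ∧ y < p ∧ (p : ℝ) ≤ y + h₀)).card : ℝ) := ⟨_, rfl⟩
  obtain ⟨P, hP⟩ : ∃ P : Finset ℕ, P = Ioc M (M + (H - w)) := ⟨_, rfl⟩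
  obtain ⟨B, hB⟩ : ∃ B : Finset (ℕ × ℕ), B = (S ×ˢ P).filter
    (fun v => cnt (v.1 + v.2) ≤ c₀ * h₀ / Real.log Y) := ⟨_, rfl⟩
  have hF : ((B.image (fun v => v.1 + v.2)).card : ℝ) ≤ Y / Real.log Y ^ (A + 1) := by
    apply hX₀ Y hYX
    intro y hy
    obtain ⟨v, hv, rfl⟩ := Finset.mem_image.1 hy
    rw [hB] at hv
    obtain ⟨h2, h3⟩ := mem_filter.1 hv
    obtain ⟨h4, h5⟩ := Finset.mem_product.1 h2
    rw [hP, mem_Ioc] at h5
    obtain ⟨h6, h7⟩ := hS _ h4
    rw [hcnt, hh₀] at h3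
    exact ⟨by omega, by omega, h3⟩
  have hBc : B.card ≤ (H / X0 + 1) * (B.image (fun v => v.1 + v.2)).card := by
    apply Finset.card_le_mul_card_image
    intro y _
    rw [← Finset.card_image_of_injOn (f := Prod.fst) (s := B.filter (fun v => v.1 + v.2 = y))]
    · apply sq_int (a := y - (M + H)) (T := T) hX01
      · intro s hs
        obtain ⟨v, hv, rfl⟩ := Finset.mem_image.1 hs
        obtain ⟨h2, _⟩ := mem_filter.1 hv
        rw [hB] at h2
        have h3 := (Finset.mem_product.1 (mem_filter.1 h2).1).1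
        obtain ⟨k, hk⟩ := hST _ h3
        refine ⟨k, ?_, hk⟩
        have h4 := (hS _ h3).1
        have h5 : X0 ^ 2 ≤ k ^ 2 := by omega
        exact (Nat.pow_le_pow_iff_left (by norm_num)).1 h5
      · intro s hs
        obtain ⟨v, hv, rfl⟩ := Finset.mem_image.1 hs
        obtain ⟨h2, h3⟩ := mem_filter.1 hv
        rw [hB] at h2
        have h4 := (Finset.mem_product.1 (mem_filter.1 h2).1).2
        rw [hP, mem_Ioc] at h4
        omega
    · intro u hu v hv huv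
      have e1 := (mem_filter.1 (Finset.mem_coe.1 hu)).2
      have e2 := (mem_filter.1 (Finset.mem_coe.1 hv)).2
      ext
      · exact huv
      · have huv' : u.1 = v.1 := huv
        omega
  have hH0 : (0 : ℝ) < H := by linarith
  have hdiv : ((H / X0 + 1 : ℕ) : ℝ) ≤ 4 * H / Real.sqrt Y := by
    push_cast
    have e0 : (0 : ℝ) < X0 := by exact_mod_cast hX01
    have e1 : ((H / X0 : ℕ) : ℝ) ≤ (H : ℝ) / X0 := Nat.cast_div_le
    have e2 : (1 : ℝ) ≤ (H : ℝ) / X0 := by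
      rw [le_div_iff₀ e0]
      linarith
    have e3 : (H : ℝ) / X0 ≤ 2 * H / Real.sqrt Y := by
      rw [div_le_div_iff₀ e0 hsq0]
      nlinarith
    have e4 : 4 * (H : ℝ) / Real.sqrt Y = 2 * (2 * H / Real.sqrt Y) := by ring
    rw [e4]
    linarith
  have hS0 : (0 : ℝ) ≤ S.card := Nat.cast_nonneg _
  have hBr : (B.card : ℝ) ≤ S.card * H / 16 := by
    have e1 : (B.card : ℝ) ≤ ((H / X0 + 1 : ℕ) : ℝ) *
        ((B.image (fun v => v.1 + v.2)).card : ℝ) := by exact_mod_cast hBc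
    have e2 : (B.card : ℝ) ≤ 4 * H / Real.sqrt Y * (Y / Real.log Y ^ (A + 1)) :=
      e1.trans (mul_le_mul hdiv hF (Nat.cast_nonneg _) (by positivity))
    have e3 : 4 * H / Real.sqrt Y * (Y / Real.log Y ^ (A + 1)) =
        4 * H / Real.log Y * (Real.sqrt Y / Real.log Y ^ A) := by
      rw [pow_succ]
      field_simp
      nlinarith
    rw [e3] at e2
    refine e2.trans ?_
    calc 4 * H / Real.log Y * (Real.sqrt Y / Real.log Y ^ A) ≤ 4 * H / 64 * S.card := by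
          apply mul_le_mul _ hSc (by positivity) (by positivity)
          exact div_le_div_of_nonneg_left (by positivity) (by norm_num) hlog
      _ = S.card * H / 16 := by ring
  have hPc : (P.card : ℝ) = H - w := by
    rw [hP, Nat.card_Ioc, Nat.add_sub_cancel_left, Nat.cast_sub hwH]
  have hgood : (S.card : ℝ) * H / 2 ≤ (((S ×ˢ P) \ B).card : ℝ) := by
    have e1 : B ⊆ S ×ˢ P := by
      rw [hB]
      exact Finset.filter_subset _ _
    rw [Finset.card_sdiff_of_subset e1, Nat.cast_sub (Finset.card_le_card e1),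
      Finset.card_product]
    push_cast
    rw [hPc]
    nlinarith
  have hpt : ∀ v ∈ (S ×ˢ P) \ B, c₀ * h₀ / Real.log Y ≤
      (((Ioc (v.1 + v.2) (v.1 + v.2 + w)).filter Nat.Prime).card : ℝ) := by
    intro v hv
    obtain ⟨h2, h3⟩ := Finset.mem_sdiff.1 hv
    rw [hB, mem_filter] at h3
    have h4 : c₀ * h₀ / Real.log Y < cnt (v.1 + v.2) := by
      by_contra hcon
      exact h3 ⟨h2, not_lt.1 hcon⟩
    refine h4.le.trans ?_
    rw [hcnt]
    simp only
    norm_cast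
    apply Finset.card_le_card
    intro p hp
    obtain ⟨_, h5, h6, h7⟩ := mem_filter.1 hp
    rw [mem_filter, mem_Ioc]
    refine ⟨⟨h6, ?_⟩, h5⟩
    have h8 : (p : ℝ) ≤ (v.1 + v.2 + w : ℕ) := by
      push_cast at h7 ⊢
      linarith
    exact_mod_cast h8
  have hthr : 0 ≤ c₀ * h₀ / Real.log Y := by positivity
  have hlow : c₀ * h₀ / Real.log Y * (S.card * H / 2) ≤
      w * ∑ h ∈ Ioc M (M + H), (r1 S h : ℝ) := by
    refine le_trans ?_ (win S M H w hwH)
    rw [← hP, ← Finset.sum_product']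
    calc c₀ * h₀ / Real.log Y * (S.card * H / 2)
        ≤ c₀ * h₀ / Real.log Y * (((S ×ˢ P) \ B).card : ℝ) :=
          mul_le_mul_of_nonneg_left hgood hthr
      _ = ∑ _v ∈ (S ×ˢ P) \ B, c₀ * h₀ / Real.log Y := by
          rw [Finset.sum_const, nsmul_eq_mul, mul_comm]
      _ ≤ ∑ v ∈ (S ×ˢ P) \ B,
          (((Ioc (v.1 + v.2) (v.1 + v.2 + w)).filter Nat.Prime).card : ℝ) :=
          Finset.sum_le_sum hpt
      _ ≤ _ := Finset.sum_le_sum_of_subset_of_nonneg Finset.sdiff_subset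
          (fun _ _ _ => Nat.cast_nonneg _)
  have hR0 : 0 ≤ ∑ h ∈ Ioc M (M + H), (r1 S h : ℝ) :=
    Finset.sum_nonneg fun _ _ => Nat.cast_nonneg _
  have hup : (w : ℝ) * ∑ h ∈ Ioc M (M + H), (r1 S h : ℝ) ≤
      2 * h₀ * ∑ h ∈ Ioc M (M + H), (r1 S h : ℝ) := mul_le_mul_of_nonneg_right hw2 hR0
  have hfin := hlow.trans hup
  have e1 : c₀ * h₀ / Real.log Y * (S.card * H / 2) =
      2 * h₀ * (c₀ / 4 * S.card * H / Real.log Y) := by ring
  rw [e1] at hfin
  exact le_of_mul_le_mul_left hfin (by linarith)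

end Pool.Agent.SQS
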