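import Mathlib
import Pool.Agent.SQS.Fm

set_option autoImplicit false

/-!
# SQS / Fm2: primes `k ^ 2 - T + h`, first moment over `h`, all blocks
-/

namespace Pool.Agent.SQS

open Finset Filter
open Pool.Agent.TSH (r1 blk r1_blk exists_I tl)

open Classical in
theorem cover' (Y : ℕ) (S : Finset ℕ) (hS : ∀ s ∈ S, s ≤ Y) (I : ℕ) :
    (S.card : ℝ) ≤ ∑ i ∈ range I, ((blk Y S i).card : ℝ) +
      ((S.filter (fun s : ℕ => (s : ℝ) ≤ Y * (2 / 3) ^ I)).card : ℝ) := by
  obtain ⟨T, hT⟩ : ∃ T : Finset ℕ, T = S.filter (fun s : ℕ => (s : ℝ) ≤ Y * (2 / 3) ^ I) := ⟨_, rfl⟩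
  have h1 : S ⊆ (range I).biUnion (blk Y S) ∪ T := by
    intro s hs
    rw [Finset.mem_union]
    by_cases h2 : (s : ℝ) ≤ Y * (2 / 3) ^ I
    · right
      rw [hT, mem_filter]
      exact ⟨hs, h2⟩
    · left
      have h2 := not_le.1 h2
      have h3 : ∃ j : ℕ, (Y : ℝ) * (2 / 3) ^ j < s := ⟨I, h2⟩
      have h4 := Nat.find_spec h3
      have h5 : Nat.find h3 ≤ I := Nat.find_le h2
      have h6 : Nat.find h3 ≠ 0 := by
        intro h7
        rw [h7, pow_zero, mul_one] at h4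
        have h8 : (s : ℝ) ≤ Y := by exact_mod_cast hS s hs
        linarith
      have h7 := Nat.find_min h3 (show Nat.find h3 - 1 < Nat.find h3 by omega)
      rw [Finset.mem_biUnion]
      refine ⟨Nat.find h3 - 1, mem_range.2 (by omega), ?_⟩
      unfold blk
      rw [mem_filter]
      refine ⟨hs, ?_, not_lt.1 h7⟩
      have h8 : Nat.find h3 - 1 + 1 = Nat.find h3 := by omega
      rw [h8]
      exact h4
  rw [← hT]
  have h3 : S.card ≤ ∑ i ∈ range I, (blk Y S i).card + T.card := by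
    refine (Finset.card_le_card h1).trans ((Finset.card_union_le _ _).trans ?_)
    exact Nat.add_le_add_right Finset.card_biUnion_le _
  exact_mod_cast h3

theorem geo' (I : ℕ) : ∑ i ∈ range I, ((5 : ℝ) / 6) ^ (i + 1) ≤ 5 := by
  have h1 : ∑ i ∈ range I, ((5 : ℝ) / 6) ^ (i + 1) = 5 - 5 * (5 / 6) ^ I := by
    induction I with
    | zero => simp
    | succ I ih =>
      rw [Finset.sum_range_succ, ih]
      ring
  rw [h1]
  have : (0 : ℝ) ≤ (5 / 6) ^ I := by positivity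
  linarith

open Classical in
/-- few small elements -/
theorem small_sq {U : ℝ} (hU : 0 ≤ U) (S : Finset ℕ) (T : ℕ) (hS : ∀ s ∈ S, ∃ k, k ^ 2 = s + T) :
    ((S.filter (fun s : ℕ => (s : ℝ) + T ≤ U ^ 2)).card : ℝ) ≤ U + 1 := by
  choose! κ hκ using hS
  have h1 : (S.filter (fun s : ℕ => (s : ℝ) + T ≤ U ^ 2)).card ≤ (range (⌊U⌋₊ + 1)).card := by
    apply Finset.card_le_card_of_injOn κ
    · intro s hs
      rw [Finset.mem_coe, mem_filter] at hs
      rw [Finset.mem_coe, mem_range]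
      have e1 := hκ s hs.1
      have e2 : ((κ s : ℝ)) ^ 2 ≤ U ^ 2 := by
        have : ((κ s : ℝ)) ^ 2 = s + T := by exact_mod_cast e1
        rw [this]
        exact hs.2
      have e3 : (κ s : ℝ) ≤ U := by
        have := abs_le_of_sq_le_sq e2 hU
        exact (abs_le.1 (by simpa using this)).2
      have := Nat.le_floor e3
      omega
    · intro s hs t ht h
      rw [Finset.mem_coe, mem_filter] at hs ht
      have e1 := hκ s hs.1
      have e2 := hκ t ht.1
      rw [h] at e1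
      omega
  rw [Finset.card_range] at h1
  have h2 : ((S.filter (fun s : ℕ => (s : ℝ) + T ≤ U ^ 2)).card : ℝ) ≤ (⌊U⌋₊ : ℝ) + 1 := by
    exact_mod_cast h1
  have h3 := Nat.floor_le hU
  linarith

/-- first moment for a set which is not too thin -/
theorem first2sq (hGap : Pool.Agent.SI.St_Gap) : ∃ c₁ : ℝ, 0 < c₁ ∧
    ∀ A : ℕ, ∀ᶠ Y : ℕ in atTop, ∀ (S : Finset ℕ) (T : ℕ), (∀ s ∈ S, s ≤ Y) →
      (∀ s ∈ S, ∃ k, k ^ 2 = s + T) →
      Real.sqrt Y / Real.log Y ^ A ≤ S.card → ∀ M H : ℕ, Real.sqrt Y ≤ H →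
      (T : ℝ) + M + H ≤ Y / Real.log Y ^ (2 * A + 5) →
      c₁ * S.card * H / Real.log Y ≤ ∑ h ∈ Ioc M (M + H), (r1 S h : ℝ) := by
  classical
  obtain ⟨c₁, hc₁, h1⟩ := first1sq hGap
  refine ⟨c₁ / 2, by positivity, fun A => ?_⟩
  obtain ⟨Y₀, hY₀⟩ := eventually_atTop.1 (h1 (A + 1))
  have hlogT : Tendsto (fun X : ℕ => Real.log X) atTop atTop :=
    Real.tendsto_log_atTop.comp tendsto_natCast_atTop_atTop
  have hsqT : Tendsto (fun X : ℕ => Real.sqrt X) atTop atTop :=
    Real.tendsto_sqrt_atTop.comp tendsto_natCast_atTop_atTop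
  filter_upwards [hsqT.eventually_ge_atTop (Y₀ + 1 : ℝ), eventually_ge_atTop 3,
    hlogT.eventually_ge_atTop (2 ^ (A + 7) : ℝ), tl (2 * A + 4) (1 / 16) (by norm_num)] with
    Y hYX hY3 hlog htl S T hS hST hSc M H hH hMH
  obtain ⟨L, hL⟩ : ∃ L : ℝ, L = Real.log Y := ⟨_, rfl⟩
  rw [← hL] at hlog htl hSc hMH ⊢
  have hL32 : 128 ≤ L := by
    refine le_trans ?_ hlog
    have : (2 : ℝ) ^ 7 ≤ 2 ^ (A + 7) := pow_le_pow_right₀ (by norm_num) (by omega)
    calc (128 : ℝ) = 2 ^ 7 := by norm_num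
      _ ≤ _ := this
  have hL0 : 0 < L := by linarith
  have hY' : (3 : ℝ) ≤ Y := by exact_mod_cast hY3
  have hY0 : (0 : ℝ) < Y := by linarith
  have hsq : Real.sqrt Y * Real.sqrt Y = Y := Real.mul_self_sqrt hY0.le
  have hsq1 : 1 ≤ Real.sqrt Y := by
    rw [Real.one_le_sqrt]
    linarith
  obtain ⟨Z, hZ⟩ : ∃ Z : ℝ, Z = L ^ (2 * A + 4) := ⟨_, rfl⟩
  rw [← hZ] at htl
  have hZL : L ^ 2 ≤ Z := by
    rw [hZ]
    exact pow_le_pow_right₀ (by linarith) (by omega)
  have hZ1 : 1 < Z := by nlinarith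
  have hZ0 : 0 < Z := by linarith
  -- sqrt Y ≤ (1/16) Y / Z
  have hsqZ : 16 * Real.sqrt Y ≤ Y / Z := by
    rw [le_div_iff₀ hZ0]
    nlinarith
  have hLZ : Y / L ^ (2 * A + 5) = Y / Z / L := by
    rw [hZ, div_div, ← pow_succ]
  obtain ⟨I, hI1, hI2⟩ := exists_I hZ1
  obtain ⟨f, hf⟩ : ∃ f : ℕ → ℝ, f = fun i => (Y : ℝ) * (2 / 3) ^ (i + 1) := ⟨_, rfl⟩
  have hfI : ∀ i < I, 2 / 3 * (Y / Z) ≤ f i := by
    intro i hi
    rw [hf]
    have := mul_le_mul_of_nonneg_left (hI2 i hi) hY0.le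
    calc 2 / 3 * (Y / Z) = Y * (2 / 3 / Z) := by ring
      _ ≤ _ := this
  have hfY : ∀ i, f i ≤ Y := by
    intro i
    rw [hf]
    have : ((2 : ℝ) / 3) ^ (i + 1) ≤ 1 := pow_le_one₀ (by norm_num) (by norm_num)
    calc (Y : ℝ) * (2 / 3) ^ (i + 1) ≤ Y * 1 := mul_le_mul_of_nonneg_left this hY0.le
      _ = Y := mul_one _
  have hfI' : ∀ i < I, Real.sqrt Y ≤ f i := by
    intro i hi
    have := hfI i hi
    linarith
  obtain ⟨g, hg⟩ : ∃ g : ℕ → ℕ, g = fun i => ⌈f i⌉₊ := ⟨_, rfl⟩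
  have hgf : ∀ i, f i ≤ g i := by
    intro i
    rw [hg]
    exact Nat.le_ceil _
  have hgY : ∀ i, g i ≤ Y := by
    intro i
    rw [hg]
    exact Nat.ceil_le.2 (hfY i)
  have hg2 : ∀ i < I, (g i : ℝ) ≤ 2 * f i := by
    intro i hi
    have h2 := hfI' i hi
    have h3 := Nat.ceil_lt_add_one (show 0 ≤ f i by linarith)
    rw [hg]
    simp only
    linarith
  have hgs : ∀ i < I, Real.sqrt (g i) ≤ 2 * Real.sqrt Y * (5 / 6) ^ (i + 1) := by
    intro i hi
    rw [Real.sqrt_le_left (by positivity)]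
    refine (hg2 i hi).trans ?_
    rw [hf]
    simp only
    have e1 : ((2 : ℝ) / 3) ^ (i + 1) ≤ (25 / 36) ^ (i + 1) :=
      pow_le_pow_left₀ (by norm_num) (by norm_num) _
    have e2 : ((25 : ℝ) / 36) ^ (i + 1) = ((5 / 6) ^ (i + 1)) ^ 2 := by
      rw [← pow_mul, mul_comm (i + 1) 2, pow_mul]
      norm_num
    rw [e2] at e1
    have e3 : (2 * Real.sqrt Y * (5 / 6 : ℝ) ^ (i + 1)) ^ 2 =
        4 * Y * ((5 / 6 : ℝ) ^ (i + 1)) ^ 2 := by
      rw [mul_pow, mul_pow, Real.sq_sqrt hY0.le]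
      ring
    rw [e3]
    have e4 : (0 : ℝ) ≤ (2 / 3) ^ (i + 1) := by positivity
    have e5 := mul_le_mul_of_nonneg_left e1 (show (0 : ℝ) ≤ 4 * Y by positivity)
    have e6 : 2 * ((Y : ℝ) * (2 / 3) ^ (i + 1)) ≤ 4 * Y * (2 / 3) ^ (i + 1) := by
      have := mul_nonneg hY0.le e4
      linarith
    exact e6.trans e5
  have hglog : ∀ i < I, L / 2 ≤ Real.log (g i) ∧ Real.log (g i) ≤ L := by
    intro i hi
    have h2 := (hfI' i hi).trans (hgf i)
    constructor
    · have h3 := Real.log_le_log (by linarith) h2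
      rw [Real.log_sqrt hY0.le, ← hL] at h3
      exact h3
    · rw [hL]
      apply Real.log_le_log (by linarith)
      exact_mod_cast hgY i
  -- rich and poor blocks
  obtain ⟨R, hR⟩ : ∃ R : Finset ℕ, R = (range I).filter (fun i =>
    Real.sqrt (g i) / Real.log (g i) ^ (A + 1) ≤ (blk Y S i).card) := ⟨_, rfl⟩
  have hrich : ∀ i ∈ R, c₁ * (blk Y S i).card * H / L ≤
      ∑ h ∈ Ioc M (M + H), (r1 (blk Y S i) h : ℝ) := by
    intro i hi
    rw [hR] at hi
    obtain ⟨hi1, hi2⟩ := mem_filter.1 hi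
    rw [mem_range] at hi1
    have h2 := (hfI' i hi1).trans (hgf i)
    have h3 : Y₀ ≤ g i := by
      have : (Y₀ : ℝ) ≤ g i := by linarith
      exact_mod_cast this
    obtain ⟨h4, h5⟩ := hglog i hi1
    have h6 : ∀ s ∈ blk Y S i, g i ≤ s ∧ 2 * s ≤ 3 * g i := by
      intro s hs
      obtain ⟨_, e1, e2⟩ := mem_filter.1 hs
      constructor
      · rw [hg]
        apply Nat.ceil_le.2
        rw [hf]
        exact e1.le
      · have e3 : (2 : ℝ) * s ≤ 3 * g i := by
          have e4 := hgf i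
          rw [hf] at e4
          simp only at e4
          have e5 : (Y : ℝ) * (2 / 3) ^ (i + 1) = 2 / 3 * (Y * (2 / 3) ^ i) := by
            rw [pow_succ]
            ring
          rw [e5] at e4
          linarith
        exact_mod_cast e3
    have h7 : 2 * (M + H) ≤ g i := by
      have e1 : (2 : ℝ) * (M + H) ≤ g i := by
        have e2 := (hfI i hi1).trans (hgf i)
        have e3 : (T : ℝ) + M + H ≤ Y / Z / L := by
          rw [← hLZ]
          exact hMH
        have e4 : Y / Z / L ≤ Y / Z / 128 :=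
          div_le_div_of_nonneg_left (by positivity) (by norm_num) hL32
        have e5 : 0 ≤ Y / Z := by positivity
        have e6 : (0 : ℝ) ≤ T := Nat.cast_nonneg T
        linarith
      exact_mod_cast e1
    have h8 : Real.sqrt (g i) ≤ H := by
      refine le_trans ?_ hH
      apply Real.sqrt_le_sqrt
      exact_mod_cast hgY i
    have h10 : ∀ s ∈ blk Y S i, ∃ k, k ^ 2 = s + T := by
      intro s hs
      exact hST s (mem_filter.1 hs).1
    have h9 := hY₀ (g i) h3 (blk Y S i) T h10 h6 hi2 M H h8 h7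
    refine le_trans ?_ h9
    apply div_le_div_of_nonneg_left (by positivity) (by linarith) h5
  have hpoor : ∑ i ∈ (range I).filter (fun i => ¬ (Real.sqrt (g i) / Real.log (g i) ^ (A + 1) ≤
      (blk Y S i).card)), ((blk Y S i).card : ℝ) ≤ S.card / 4 := by
    have h2 : ∀ i ∈ (range I).filter (fun i => ¬ (Real.sqrt (g i) / Real.log (g i) ^ (A + 1) ≤
        (blk Y S i).card)), ((blk Y S i).card : ℝ) ≤
        2 * Real.sqrt Y * 2 ^ (A + 1) / L ^ (A + 1) * (5 / 6) ^ (i + 1) := by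
      intro i hi
      obtain ⟨hi1, hi2⟩ := mem_filter.1 hi
      rw [mem_range] at hi1
      refine (not_le.1 hi2).le.trans ?_
      obtain ⟨h4, _⟩ := hglog i hi1
      calc Real.sqrt (g i) / Real.log (g i) ^ (A + 1) ≤
          2 * Real.sqrt Y * (5 / 6) ^ (i + 1) / (L / 2) ^ (A + 1) := by
            apply div_le_div₀ (by positivity) (hgs i hi1) (by positivity)
            exact pow_le_pow_left₀ (by positivity) h4 _
        _ = _ := by
            have e1 : (L / 2) ^ (A + 1) = L ^ (A + 1) / 2 ^ (A + 1) := div_pow _ _ _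
            rw [e1]
            field_simp
    have h3 := Finset.sum_le_sum h2
    refine h3.trans ?_
    calc ∑ i ∈ (range I).filter (fun i => ¬ (Real.sqrt (g i) / Real.log (g i) ^ (A + 1) ≤
          (blk Y S i).card)), 2 * Real.sqrt Y * 2 ^ (A + 1) / L ^ (A + 1) * (5 / 6 : ℝ) ^ (i + 1)
        ≤ ∑ i ∈ range I, 2 * Real.sqrt Y * 2 ^ (A + 1) / L ^ (A + 1) * (5 / 6 : ℝ) ^ (i + 1) :=
          Finset.sum_le_sum_of_subset_of_nonneg (Finset.filter_subset _ _)
            (fun _ _ _ => by positivity)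
      _ = 2 * Real.sqrt Y * 2 ^ (A + 1) / L ^ (A + 1) * ∑ i ∈ range I, (5 / 6 : ℝ) ^ (i + 1) := by
          rw [Finset.mul_sum]
      _ ≤ 2 * Real.sqrt Y * 2 ^ (A + 1) / L ^ (A + 1) * 5 :=
          mul_le_mul_of_nonneg_left (geo' I) (by positivity)
      _ = 20 * 2 ^ A / L * (Real.sqrt Y / L ^ A) := by
          rw [pow_succ L A, pow_succ (2 : ℝ) A]
          field_simp
          ring
      _ ≤ 1 / 4 * S.card := by
          apply mul_le_mul _ hSc (by positivity) (by norm_num)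
          rw [div_le_div_iff₀ hL0 (by norm_num)]
          have e1 : (2 : ℝ) ^ (A + 7) = 128 * 2 ^ A := by
            rw [pow_add]
            norm_num
            ring
          rw [e1] at hlog
          have e2 : (0 : ℝ) < 2 ^ A := by positivity
          linarith
      _ = S.card / 4 := by ring
  have htail : ((S.filter (fun s : ℕ => (s : ℝ) ≤ Y * (2 / 3) ^ I)).card : ℝ) ≤ S.card / 4 := by
    obtain ⟨U, hU⟩ : ∃ U : ℝ, U = 2 * Real.sqrt Y / L ^ (A + 2) := ⟨_, rfl⟩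
    have hU0 : 0 ≤ U := by
      rw [hU]
      positivity
    have hU2 : U ^ 2 = 4 * (Y / Z) := by
      rw [hU, hZ, div_pow, mul_pow, Real.sq_sqrt hY0.le, ← pow_mul]
      have : (A + 2) * 2 = 2 * A + 4 := by ring
      rw [this]
      ring
    have h2 : (S.filter (fun s : ℕ => (s : ℝ) ≤ Y * (2 / 3) ^ I)) ⊆
        S.filter (fun s : ℕ => (s : ℝ) + T ≤ U ^ 2) := by
      intro s hs
      obtain ⟨e1, e2⟩ := mem_filter.1 hs
      rw [mem_filter]
      refine ⟨e1, ?_⟩
      rw [hU2]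
      have e3 : (Y : ℝ) * (2 / 3) ^ I ≤ Y / Z := by
        calc (Y : ℝ) * (2 / 3) ^ I ≤ Y * (1 / Z) := mul_le_mul_of_nonneg_left hI1 hY0.le
          _ = Y / Z := by ring
      have e4 : (T : ℝ) + M + H ≤ Y / Z / L := by
        rw [← hLZ]
        exact hMH
      have e5 : Y / Z / L ≤ Y / Z / 1 :=
        div_le_div_of_nonneg_left (by positivity) (by norm_num) (by linarith)
      rw [div_one] at e5
      have e6 : (0 : ℝ) ≤ M := Nat.cast_nonneg M
      have e7 : (0 : ℝ) ≤ H := Nat.cast_nonneg H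
      have e8 : 0 ≤ Y / Z := by positivity
      linarith
    have h3 : ((S.filter (fun s : ℕ => (s : ℝ) ≤ Y * (2 / 3) ^ I)).card : ℝ) ≤ U + 1 := by
      refine le_trans ?_ (small_sq hU0 S T hST)
      exact_mod_cast Finset.card_le_card h2
    refine h3.trans ?_
    have h4 : L ^ (A + 2) ≤ Real.sqrt Y := by
      have e1 : L ^ (A + 2) ≤ Z := by
        rw [hZ]
        exact pow_le_pow_right₀ (by linarith) (by omega)
      have e2 : 0 ≤ Real.sqrt Y := by linarith
      linarith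
    have h5 : 1 ≤ Real.sqrt Y / L ^ (A + 2) := by
      rw [le_div_iff₀ (by positivity), one_mul]
      exact h4
    have h6 : U + 1 ≤ 3 * (Real.sqrt Y / L ^ (A + 2)) := by
      rw [hU]
      have : 2 * Real.sqrt Y / L ^ (A + 2) = 2 * (Real.sqrt Y / L ^ (A + 2)) := by ring
      linarith
    refine h6.trans ?_
    have h7 : Real.sqrt Y / L ^ (A + 2) = Real.sqrt Y / L ^ A / L ^ 2 := by
      rw [pow_add, div_div]
    rw [h7]
    have h8 : Real.sqrt Y / L ^ A / L ^ 2 ≤ S.card / 12 := by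
      apply div_le_div₀ (Nat.cast_nonneg _) hSc (by norm_num)
      nlinarith
    linarith
  have hcov := cover' Y S hS I
  have hsplit := Finset.sum_filter_add_sum_filter_not (range I)
    (fun i => Real.sqrt (g i) / Real.log (g i) ^ (A + 1) ≤ (blk Y S i).card)
    (fun i => ((blk Y S i).card : ℝ))
  rw [← hR] at hsplit
  have hsum : (S.card : ℝ) / 2 ≤ ∑ i ∈ R, ((blk Y S i).card : ℝ) := by linarith
  calc c₁ / 2 * S.card * H / L = c₁ * H / L * (S.card / 2) := by ring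
    _ ≤ c₁ * H / L * ∑ i ∈ R, ((blk Y S i).card : ℝ) :=
        mul_le_mul_of_nonneg_left hsum (by positivity)
    _ = ∑ i ∈ R, c₁ * (blk Y S i).card * H / L := by
        rw [Finset.mul_sum]
        apply Finset.sum_congr rfl
        intro i _
        ring
    _ ≤ ∑ i ∈ R, ∑ h ∈ Ioc M (M + H), (r1 (blk Y S i) h : ℝ) := Finset.sum_le_sum hrich
    _ = ∑ h ∈ Ioc M (M + H), ∑ i ∈ R, (r1 (blk Y S i) h : ℝ) := Finset.sum_comm
    _ ≤ _ := Finset.sum_le_sum fun h _ => r1_blk Y S R h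

/-- first moment for the numbers `k ^ 2 - T` -/
theorem first_sq (hGap : Pool.Agent.SI.St_Gap) : ∃ c₁ : ℝ, 0 < c₁ ∧
    ∀ A : ℕ, ∀ᶠ X : ℕ in atTop, ∀ (K : Finset ℕ) (T : ℕ), (∀ k ∈ K, k ≤ X ∧ T < k ^ 2) →
      (X : ℝ) / Real.log X ^ A ≤ K.card → ∀ M H : ℕ, (X : ℝ) ≤ H →
      (T : ℝ) + M + H ≤ (X : ℝ) ^ 2 / Real.log X ^ (2 * A + 6) →
      c₁ * K.card * H / Real.log X ≤
        ∑ h ∈ Ioc M (M + H), (r1 (K.image (fun k => k ^ 2 - T)) h : ℝ) := by
  classical
  obtain ⟨c₁, hc₁, h1⟩ := first2sq hGap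
  refine ⟨c₁ / 2, by positivity, fun A => ?_⟩
  obtain ⟨Y₀, hY₀⟩ := eventually_atTop.1 (h1 A)
  have hlogT : Tendsto (fun X : ℕ => Real.log X) atTop atTop :=
    Real.tendsto_log_atTop.comp tendsto_natCast_atTop_atTop
  filter_upwards [eventually_ge_atTop Y₀, eventually_ge_atTop 3,
    hlogT.eventually_ge_atTop (2 ^ (2 * A + 5) : ℝ)] with X hX hX3 hlog K T hK hKc M H hH hMH
  have hX' : (3 : ℝ) ≤ X := by exact_mod_cast hX3
  obtain ⟨l, hl⟩ : ∃ l : ℝ, l = Real.log X := ⟨_, rfl⟩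
  rw [← hl] at hlog hKc hMH ⊢
  have hl1 : 1 ≤ l := le_trans (one_le_pow₀ (by norm_num)) hlog
  have hl0 : 0 < l := by linarith
  have hsq : Real.sqrt ((X ^ 2 : ℕ) : ℝ) = X := by
    push_cast
    exact Real.sqrt_sq (by linarith)
  have hlY : Real.log ((X ^ 2 : ℕ) : ℝ) = 2 * l := by
    push_cast
    rw [Real.log_pow, hl]
    norm_num
  have hYY : Y₀ ≤ X ^ 2 := by nlinarith
  have hinj : Set.InjOn (fun k => k ^ 2 - T) (K : Set ℕ) := by
    intro a ha b hb hab
    have e1 := (hK a ha).2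
    have e2 := (hK b hb).2
    have e3 : a ^ 2 - T = b ^ 2 - T := hab
    have e4 : a ^ 2 = b ^ 2 := by omega
    exact Nat.pow_left_injective (n := 2) (by norm_num) e4
  have hcard : (K.image (fun k => k ^ 2 - T)).card = K.card := Finset.card_image_of_injOn hinj
  have h2 := hY₀ (X ^ 2) hYY (K.image (fun k => k ^ 2 - T)) T
    (by
      intro s hs
      obtain ⟨k, hk, rfl⟩ := Finset.mem_image.1 hs
      have e1 := (hK k hk).1
      have e2 : k ^ 2 ≤ X ^ 2 := Nat.pow_le_pow_left e1 2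
      show k ^ 2 - T ≤ X ^ 2
      omega)
    (by
      intro s hs
      obtain ⟨k, hk, rfl⟩ := Finset.mem_image.1 hs
      refine ⟨k, ?_⟩
      have e1 := (hK k hk).2
      show k ^ 2 = k ^ 2 - T + T
      omega)
    (by
      rw [hcard, hsq, hlY]
      refine le_trans ?_ hKc
      apply div_le_div_of_nonneg_left (by linarith) (by positivity)
      exact pow_le_pow_left₀ hl0.le (by linarith) _)
    M H (by rw [hsq]; exact hH)
    (by
      rw [hlY]
      refine hMH.trans ?_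
      push_cast
      apply div_le_div_of_nonneg_left (by positivity) (by positivity)
      rw [mul_pow]
      have e1 : l ^ (2 * A + 6) = l * l ^ (2 * A + 5) := by
        rw [pow_succ]
        ring
      rw [e1]
      exact mul_le_mul_of_nonneg_right hlog (by positivity))
  rw [hcard, hlY] at h2
  refine le_trans (le_of_eq ?_) h2
  field_simp

end Pool.Agent.SQS
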