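import Mathlib
import Pool.Agent.TSH.Sing

set_option autoImplicit false

/-!
# SQS / Ratio: the factors `D / φ(D)` of the differences `D = k'^2 - k^2` of the squares of a set
which is not too thin
-/

namespace Pool.Agent.SQS

open Finset Filter Real
open Pool.Agent.TSH

/-- the product over a union -/
theorem prod_union_le {ι : Type*} [DecidableEq ι] (s t : Finset ι) (g : ι → ℝ)
    (hg : ∀ i ∈ s ∪ t, 1 ≤ g i) : ∏ i ∈ s ∪ t, g i ≤ (∏ i ∈ s, g i) * ∏ i ∈ t, g i := by
  have h1 := Finset.prod_union_inter (s₁ := s) (s₂ := t) (f := g)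
  have h2 : 1 ≤ ∏ i ∈ s ∩ t, g i := one_le_prod' _ _ fun i hi =>
    hg i (Finset.mem_union_left _ (Finset.mem_inter.1 hi).1)
  have h3 : 0 ≤ ∏ i ∈ s ∪ t, g i := Finset.prod_nonneg fun i hi => by
    have := hg i hi
    linarith
  rw [← h1]
  nlinarith

/-- pointwise bound for a product of two numbers -/
theorem ratio_mul_le {y D E : ℕ} (hy : 1 ≤ y) (hD : 0 < D) (hE : 0 < E) :
    ((D * E : ℕ) : ℝ) / Nat.totient (D * E) ≤ Real.exp 4 * (Pool.Agent.GBQ.rho y)⁻¹ +
      2⁻¹ ^ y * ((16 : ℝ) ^ D.primeFactors.card + 16 ^ E.primeFactors.card) := by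
  classical
  rw [Pool.Agent.PC.BlockB.ratio_eq (Nat.mul_pos hD hE), Nat.primeFactors_mul hD.ne' hE.ne']
  have hpr : ∀ p ∈ D.primeFactors ∪ E.primeFactors, p.Prime := by
    intro p hp
    rcases Finset.mem_union.1 hp with h | h
    · exact Nat.prime_of_mem_primeFactors h
    · exact Nat.prime_of_mem_primeFactors h
  have hg1 : ∀ p ∈ D.primeFactors ∪ E.primeFactors, 1 ≤ (1 - 1 / (p : ℝ))⁻¹ := fun p hp =>
    (fac_bd (hpr p hp)).1
  have hRR0 : 0 ≤ (Pool.Agent.GBQ.rho y)⁻¹ := by
    have h1 := RR_le y 1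
    have h2 := one_le_RR y 1
    linarith
  by_cases h : big y D ≤ y ∧ big y E ≤ y
  · obtain ⟨h1, h2⟩ := h
    have h3 : ∏ p ∈ D.primeFactors ∪ E.primeFactors, (1 - 1 / (p : ℝ))⁻¹ =
        (∏ p ∈ (D.primeFactors ∪ E.primeFactors).filter (fun p => p ≤ y), (1 - 1 / (p : ℝ))⁻¹) *
        ∏ p ∈ (D.primeFactors ∪ E.primeFactors).filter (fun p => y < p), (1 - 1 / (p : ℝ))⁻¹ := by
      rw [← Finset.prod_filter_mul_prod_filter_not (D.primeFactors ∪ E.primeFactors)
        (fun p => p ≤ y)]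
      simp only [not_le]
    have h4 : ∏ p ∈ (D.primeFactors ∪ E.primeFactors).filter (fun p => p ≤ y),
        (1 - 1 / (p : ℝ))⁻¹ ≤ (Pool.Agent.GBQ.rho y)⁻¹ := by
      have h5 := RR_le y (D * E)
      unfold RR at h5
      rw [Nat.primeFactors_mul hD.ne' hE.ne'] at h5
      exact h5
    have h6 : ∏ p ∈ (D.primeFactors ∪ E.primeFactors).filter (fun p => y < p),
        (1 - 1 / (p : ℝ))⁻¹ ≤ Real.exp 4 := by
      rw [Finset.filter_union]
      refine (prod_union_le _ _ _ ?_).trans ?_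
      · intro p hp
        rw [← Finset.filter_union] at hp
        exact hg1 p (mem_filter.1 hp).1
      · have h7 := big_prod hy h1
        have h8 := big_prod hy h2
        have h9 : 0 ≤ ∏ p ∈ E.primeFactors.filter (fun p => y < p), (1 - 1 / (p : ℝ))⁻¹ :=
          Finset.prod_nonneg fun p hp => by
            have := (fac_bd (Nat.prime_of_mem_primeFactors (mem_filter.1 hp).1)).1
            linarith
        calc _ ≤ Real.exp 2 * Real.exp 2 := mul_le_mul h7 h8 h9 (Real.exp_pos 2).le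
          _ = Real.exp 4 := by
              rw [← Real.exp_add]
              norm_num
    have h10 : 0 ≤ ∏ p ∈ (D.primeFactors ∪ E.primeFactors).filter (fun p => y < p),
        (1 - 1 / (p : ℝ))⁻¹ := Finset.prod_nonneg fun p hp => by
      have := hg1 p (mem_filter.1 hp).1
      linarith
    rw [h3]
    have h11 := mul_le_mul h4 h6 h10 hRR0
    have h12 : (0 : ℝ) ≤ 2⁻¹ ^ y * ((16 : ℝ) ^ D.primeFactors.card + 16 ^ E.primeFactors.card) := by
      positivity
    linarith
  · have h1 : ∏ p ∈ D.primeFactors ∪ E.primeFactors, (1 - 1 / (p : ℝ))⁻¹ ≤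
        2 ^ D.primeFactors.card * 2 ^ E.primeFactors.card := by
      refine (prod_union_le _ _ _ hg1).trans ?_
      have hb : ∀ F : ℕ, ∏ p ∈ F.primeFactors, (1 - 1 / (p : ℝ))⁻¹ ≤ 2 ^ F.primeFactors.card ∧
          0 ≤ ∏ p ∈ F.primeFactors, (1 - 1 / (p : ℝ))⁻¹ := by
        intro F
        constructor
        · rw [← Finset.prod_const]
          apply Finset.prod_le_prod
          · intro p hp
            have := (fac_bd (Nat.prime_of_mem_primeFactors hp)).1
            linarith
          · intro p hp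
            exact (fac_bd (Nat.prime_of_mem_primeFactors hp)).2.1
        · exact Finset.prod_nonneg fun p hp => by
            have := (fac_bd (Nat.prime_of_mem_primeFactors hp)).1
            linarith
      exact mul_le_mul (hb D).1 (hb E).1 (hb E).2 (by positivity)
    refine h1.trans ?_
    have key : ∀ a b : ℕ, y ≤ a →
        (2 : ℝ) ^ a * 2 ^ b ≤ 2⁻¹ ^ y * ((16 : ℝ) ^ a + 16 ^ b) := by
      intro a b hab
      have e1 : (2 : ℝ) ^ y ≤ 2 ^ a := pow_le_pow_right₀ (by norm_num) hab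
      have e2 : (2 : ℝ) ^ a ≤ 2⁻¹ ^ y * 4 ^ a := by
        have e3 : (4 : ℝ) ^ a = 2 ^ a * 2 ^ a := by
          rw [← mul_pow]
          norm_num
        rw [inv_pow, ← div_eq_inv_mul, le_div_iff₀ (by positivity), e3]
        exact mul_le_mul_of_nonneg_left e1 (by positivity)
      have e4 : (16 : ℝ) ^ a = 4 ^ a * 4 ^ a := by
        rw [← mul_pow]
        norm_num
      have e5 : (2 : ℝ) ^ b * 2 ^ b = 4 ^ b := by
        rw [← mul_pow]
        norm_num
      have e6 : (4 : ℝ) ^ b ≤ 16 ^ b := pow_le_pow_left₀ (by norm_num) (by norm_num) b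
      have e7 : (4 : ℝ) ^ a * 2 ^ b ≤ 16 ^ a + 16 ^ b := by
        nlinarith [sq_nonneg ((4 : ℝ) ^ a - 2 ^ b), show (0 : ℝ) < 4 ^ a by positivity,
          show (0 : ℝ) < 2 ^ b by positivity]
      calc (2 : ℝ) ^ a * 2 ^ b ≤ 2⁻¹ ^ y * 4 ^ a * 2 ^ b :=
            mul_le_mul_of_nonneg_right e2 (by positivity)
        _ = 2⁻¹ ^ y * (4 ^ a * 2 ^ b) := by ring
        _ ≤ _ := mul_le_mul_of_nonneg_left e7 (by positivity)
    have h0 : 0 ≤ Real.exp 4 * (Pool.Agent.GBQ.rho y)⁻¹ := mul_nonneg (Real.exp_pos 4).le hRR0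
    have hbig : ∀ F : ℕ, big y F ≤ F.primeFactors.card := fun F => Finset.card_filter_le _ _
    rcases not_and_or.1 h with h2 | h2
    · have h3 := key D.primeFactors.card E.primeFactors.card (by have := hbig D; omega)
      linarith
    · have h3 := key E.primeFactors.card D.primeFactors.card (by have := hbig E; omega)
      rw [mul_comm, add_comm ((16 : ℝ) ^ D.primeFactors.card)]
      linarith

/-- the sum of `16 ^ ω(D)` -/
theorem sum_sixteen {N : ℕ} (hN : 1 ≤ N) :
    ∑ D ∈ Icc 1 N, (16 : ℝ) ^ D.primeFactors.card ≤ N * (1 + Real.log N) ^ 16 := by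
  have h := Pool.Agent.GBQ.thm_Div 16 N hN
  push_cast at h
  calc ∑ D ∈ Icc 1 N, (16 : ℝ) ^ D.primeFactors.card
      ≤ ∑ D ∈ Icc 1 N, (N : ℝ) * ((16 : ℝ) ^ D.primeFactors.card / D) := by
        apply Finset.sum_le_sum
        intro D hD
        obtain ⟨h1, h2⟩ := Finset.mem_Icc.1 hD
        have h3 : (0 : ℝ) < D := by exact_mod_cast h1
        have h4 : (D : ℝ) ≤ N := by exact_mod_cast h2
        rw [mul_div_assoc', le_div_iff₀ h3, mul_comm (N : ℝ)]
        apply mul_le_mul_of_nonneg_left h4 (by positivity)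
    _ = N * ∑ D ∈ Icc 1 N, (16 : ℝ) ^ D.primeFactors.card / D := by rw [Finset.mul_sum]
    _ ≤ _ := mul_le_mul_of_nonneg_left h (Nat.cast_nonneg N)

/-- the sum along an injective function -/
theorem sum_sixteen_inj {N : ℕ} (hN : 1 ≤ N) (S : Finset ℕ) (D : ℕ → ℕ) (hinj : Set.InjOn D S)
    (hD : ∀ k ∈ S, 1 ≤ D k ∧ D k ≤ N) :
    ∑ k ∈ S, (16 : ℝ) ^ (D k).primeFactors.card ≤ N * (1 + Real.log N) ^ 16 := by
  refine le_trans ?_ (sum_sixteen hN)
  rw [← Finset.sum_image (s := S) (g := D) (f := fun d : ℕ => (16 : ℝ) ^ d.primeFactors.card) hinj]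
  apply Finset.sum_le_sum_of_subset_of_nonneg
  · intro d hd
    obtain ⟨k, hk, rfl⟩ := Finset.mem_image.1 hd
    exact Finset.mem_Icc.2 (hD k hk)
  · intro d _ _
    positivity

/-- **Average of `D / φ(D)`** over the differences of the squares of a set which is not too thin. -/
theorem sum_ratio_sq (A : ℕ) : ∃ C : ℝ, 0 < C ∧ ∀ᶠ X : ℕ in atTop, ∀ K : Finset ℕ,
    (∀ k ∈ K, k ≤ X) → (X : ℝ) / Real.log X ^ A ≤ K.card →
    ∑ k ∈ K, ∑ k' ∈ K.filter (fun k' => k < k'),
      ((k' ^ 2 - k ^ 2 : ℕ) : ℝ) / Nat.totient (k' ^ 2 - k ^ 2) ≤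
      C * (K.card : ℝ) ^ 2 * L3 X := by
  obtain ⟨C, hC, h⟩ := rho_yL
  refine ⟨Real.exp 4 * C + 1, by positivity, ?_⟩
  filter_upwards [h, tail (A + 34), eventually_ge_atTop 3,
    (Real.tendsto_log_atTop.comp tendsto_natCast_atTop_atTop).eventually_ge_atTop 3] with
    X h1 h2 hX3 hlog K hK hcard
  obtain ⟨hy, hL3, hrho⟩ := h1
  have hlog' : (3 : ℝ) ≤ Real.log X := hlog
  have hX : (3 : ℝ) ≤ X := by exact_mod_cast hX3
  have hS0 : (0 : ℝ) ≤ K.card := Nat.cast_nonneg _
  have h3 : ∀ k ∈ K, ∑ k' ∈ K.filter (fun k' => k < k'),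
      ((k' ^ 2 - k ^ 2 : ℕ) : ℝ) / Nat.totient (k' ^ 2 - k ^ 2) ≤
      K.card * (Real.exp 4 * (C * L3 X)) +
        2⁻¹ ^ yL X * (2 * (((2 * X : ℕ) : ℝ) * (1 + Real.log (2 * X : ℕ)) ^ 16)) := by
    intro k hk
    have hkX := hK k hk
    have s1 : ∑ k' ∈ K.filter (fun k' => k < k'), (16 : ℝ) ^ (k' + k).primeFactors.card ≤
        ((2 * X : ℕ) : ℝ) * (1 + Real.log (2 * X : ℕ)) ^ 16 := by
      apply sum_sixteen_inj (N := 2 * X) (by omega) _ (fun k' => k' + k)
      · intro a _ b _ hab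
        have hab' : a + k = b + k := hab
        omega
      · intro k' hk'
        obtain ⟨e1, e2⟩ := mem_filter.1 hk'
        have := hK k' e1
        constructor <;> omega
    have s2 : ∑ k' ∈ K.filter (fun k' => k < k'), (16 : ℝ) ^ (k' - k).primeFactors.card ≤
        ((2 * X : ℕ) : ℝ) * (1 + Real.log (2 * X : ℕ)) ^ 16 := by
      apply sum_sixteen_inj (N := 2 * X) (by omega) _ (fun k' => k' - k)
      · intro a ha b hb hab
        have ha' := (mem_filter.1 (Finset.mem_coe.1 ha)).2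
        have hb' := (mem_filter.1 (Finset.mem_coe.1 hb)).2
        have hab' : a - k = b - k := hab
        omega
      · intro k' hk'
        obtain ⟨e1, e2⟩ := mem_filter.1 hk'
        have := hK k' e1
        constructor <;> omega
    calc ∑ k' ∈ K.filter (fun k' => k < k'),
          ((k' ^ 2 - k ^ 2 : ℕ) : ℝ) / Nat.totient (k' ^ 2 - k ^ 2)
        ≤ ∑ k' ∈ K.filter (fun k' => k < k'), (Real.exp 4 * (C * L3 X) +
            2⁻¹ ^ yL X * ((16 : ℝ) ^ (k' + k).primeFactors.card +
              16 ^ (k' - k).primeFactors.card)) := by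
          apply Finset.sum_le_sum
          intro k' hk'
          have hlt := (mem_filter.1 hk').2
          rw [Nat.sq_sub_sq]
          have h4 := ratio_mul_le (y := yL X) (D := k' + k) (E := k' - k) (by omega)
            (by omega) (by omega)
          have h5 := mul_le_mul_of_nonneg_left hrho (Real.exp_pos 4).le
          linarith
      _ = ((K.filter (fun k' => k < k')).card : ℝ) * (Real.exp 4 * (C * L3 X)) +
            2⁻¹ ^ yL X * (∑ k' ∈ K.filter (fun k' => k < k'), (16 : ℝ) ^ (k' + k).primeFactors.card +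
              ∑ k' ∈ K.filter (fun k' => k < k'), (16 : ℝ) ^ (k' - k).primeFactors.card) := by
          rw [Finset.sum_add_distrib, Finset.sum_const, nsmul_eq_mul, ← Finset.mul_sum,
            Finset.sum_add_distrib]
      _ ≤ _ := by
          apply add_le_add
          · apply mul_le_mul_of_nonneg_right _ (by positivity)
            exact_mod_cast Finset.card_filter_le _ _
          · apply mul_le_mul_of_nonneg_left _ (by positivity)
            linarith
  refine (Finset.sum_le_sum h3).trans ?_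
  rw [Finset.sum_const, nsmul_eq_mul]
  -- the small part
  have h5 : 1 + Real.log (2 * X : ℕ) ≤ Real.log X * Real.log X := by
    push_cast
    rw [Real.log_mul (by norm_num) (by linarith)]
    have := Real.log_two_lt_d9
    nlinarith
  have h6 : (1 + Real.log (2 * X : ℕ)) ^ 16 ≤ (Real.log X * Real.log X) ^ 16 := by
    apply pow_le_pow_left₀ _ h5
    have : 0 ≤ Real.log (2 * X : ℕ) := Real.log_natCast_nonneg _
    linarith
  have h7 : 2⁻¹ ^ yL X * (2 * (((2 * X : ℕ) : ℝ) * (1 + Real.log (2 * X : ℕ)) ^ 16)) ≤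
      K.card := by
    refine le_trans ?_ hcard
    rw [le_div_iff₀ (by positivity)]
    calc 2⁻¹ ^ yL X * (2 * (((2 * X : ℕ) : ℝ) * (1 + Real.log (2 * X : ℕ)) ^ 16)) * Real.log X ^ A
        ≤ 2⁻¹ ^ yL X * (2 * (((2 * X : ℕ) : ℝ) * (Real.log X * Real.log X) ^ 16)) *
            Real.log X ^ A := by
          apply mul_le_mul_of_nonneg_right _ (by positivity)
          apply mul_le_mul_of_nonneg_left _ (by positivity)
          apply mul_le_mul_of_nonneg_left _ (by positivity)
          exact mul_le_mul_of_nonneg_left h6 (by positivity)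
      _ = 2⁻¹ ^ yL X * X * Real.log X ^ (A + 32) * 4 := by
          push_cast
          ring
      _ ≤ 2⁻¹ ^ yL X * X * Real.log X ^ (A + 32) * Real.log X ^ 2 := by
          apply mul_le_mul_of_nonneg_left _ (by positivity)
          nlinarith
      _ = X * (2⁻¹ ^ yL X * Real.log X ^ (A + 34)) := by ring
      _ ≤ X * 1 := mul_le_mul_of_nonneg_left h2 (by positivity)
      _ = X := mul_one _
  have h8 := mul_le_mul_of_nonneg_left h7 hS0
  have h9 : (K.card : ℝ) * K.card ≤ K.card * K.card * L3 X := by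
    nlinarith [mul_nonneg hS0 hS0]
  nlinarith

end Pool.Agent.SQS
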