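import Mathlib
import Pool.Agent.TSH.TB
import Pool.Agent.SQS.Ratio

set_option autoImplicit false

/-!
# SQS / Sm: second moment for primes `k^2 - T + h`
-/

namespace Pool.Agent.SQS

open Finset Filter Real
open Pool.Agent.TSH

/-- the double sum over the image of the squares -/
theorem sum_image_sq (K : Finset ℕ) (T : ℕ) (hT : ∀ k ∈ K, T ≤ k ^ 2) (g : ℕ → ℝ) :
    ∑ s ∈ K.image (fun k => k ^ 2 - T), ∑ s' ∈ (K.image (fun k => k ^ 2 - T)).filter
      (fun s' => s < s'), g (s' - s) =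
    ∑ k ∈ K, ∑ k' ∈ K.filter (fun k' => k < k'), g (k' ^ 2 - k ^ 2) := by
  classical
  have hinj : Set.InjOn (fun k : ℕ => k ^ 2 - T) K := by
    intro a ha b hb hab
    have hab' : a ^ 2 - T = b ^ 2 - T := hab
    have h1 := hT a ha
    have h2 := hT b hb
    have h3 : a ^ 2 = b ^ 2 := by omega
    exact Nat.pow_left_injective (by norm_num : (2 : ℕ) ≠ 0) h3
  rw [Finset.sum_image hinj]
  apply Finset.sum_congr rfl
  intro k hk
  rw [Finset.filter_image, Finset.sum_image (fun a ha b hb => hinj (mem_filter.1 ha).1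
    (mem_filter.1 hb).1)]
  have hk' := hT k hk
  have h1 : K.filter (fun a => k ^ 2 - T < a ^ 2 - T) = K.filter (fun k' => k < k') := by
    apply Finset.filter_congr
    intro a ha
    have ha' := hT a ha
    constructor
    · intro h
      have h2 : k ^ 2 < a ^ 2 := by omega
      exact lt_of_pow_lt_pow_left₀ 2 (Nat.zero_le a) h2
    · intro h
      have h2 : k ^ 2 < a ^ 2 := Nat.pow_lt_pow_left h (by norm_num)
      omega
  rw [h1]
  apply Finset.sum_congr rfl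
  intro a ha
  have ha' := hT a (mem_filter.1 ha).1
  congr 1
  omega

/-- second moment -/
theorem second_sqT (A : ℕ) : ∃ C₃ : ℝ, 0 < C₃ ∧ ∀ᶠ X : ℕ in atTop, ∀ K : Finset ℕ,
    (∀ k ∈ K, k ≤ X) → (X : ℝ) / Real.log X ^ A ≤ K.card → ∀ T : ℕ, (∀ k ∈ K, T ≤ k ^ 2) →
    ∀ M H : ℕ, (X : ℝ) ^ (1 / 4 : ℝ) ≤ H →
    ∑ h ∈ Ioc M (M + H), (r1 (K.image (fun k => k ^ 2 - T)) h : ℝ) ^ 2 ≤
      C₃ * H * (K.card : ℝ) ^ 2 * L3 X / Real.log X ^ 2 := by
  classical
  obtain ⟨C₁, hC₁, hps⟩ := Pool.Agent.PC.pair_sieve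
  obtain ⟨C₂, hC₂, hsr⟩ := sum_ratio_sq A
  refine ⟨32 * C₁ * C₂ + 1, by positivity, ?_⟩
  filter_upwards [hsr, eventually_ge_atTop 3,
    (Real.tendsto_log_atTop.comp tendsto_natCast_atTop_atTop).eventually_ge_atTop (2 : ℝ),
    tendsto_L3.eventually_ge_atTop 1, tl (A + 2) 1 one_pos] with Y hsr hY3 hlog hL3 htl
    K hK hKc T hT M H hH
  have hinj : Set.InjOn (fun k : ℕ => k ^ 2 - T) K := by
    intro a ha b hb hab
    have hab' : a ^ 2 - T = b ^ 2 - T := hab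
    have h1 := hT a ha
    have h2 := hT b hb
    have h3 : a ^ 2 = b ^ 2 := by omega
    exact Nat.pow_left_injective (by norm_num : (2 : ℕ) ≠ 0) h3
  obtain ⟨S, hS⟩ : ∃ S : Finset ℕ, S = K.image (fun k => k ^ 2 - T) := ⟨_, rfl⟩
  have hSK : S.card = K.card := by
    rw [hS]
    exact Finset.card_image_of_injOn hinj
  rw [← hS, ← hSK]
  rw [← hSK] at hKc
  have hlog : 2 ≤ Real.log Y := hlog
  have hY' : (3 : ℝ) ≤ Y := by exact_mod_cast hY3
  have hlog0 : 0 < Real.log Y := by linarith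
  have hSlog : Real.log Y ^ 2 ≤ S.card := by
    refine le_trans ?_ hKc
    rw [le_div_iff₀ (by positivity)]
    have h1 : Real.log Y ^ 2 * Real.log Y ^ A = Real.log Y ^ (A + 2) := by ring
    rw [h1]
    refine htl.trans ?_
    have h4 : Real.sqrt Y * Real.sqrt Y = Y := Real.mul_self_sqrt (by linarith)
    have h5 : 1 ≤ Real.sqrt Y := by
      rw [Real.one_le_sqrt]
      linarith
    nlinarith
  have hS0 : (0 : ℝ) < S.card := lt_of_lt_of_le (by positivity) hSlog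
  have hH1 : (1 : ℝ) ≤ H := by
    refine le_trans ?_ hH
    exact Real.one_le_rpow (by linarith) (by norm_num)
  have hH0 : (0 : ℝ) < H := by linarith
  have hlogH : Real.log Y / 4 ≤ Real.log H := by
    have h2 := Real.log_le_log (by positivity) hH
    rw [Real.log_rpow (by linarith)] at h2
    linarith
  have hlogH0 : 0 < Real.log H := by linarith
  have hH2 : 2 ≤ H := by
    by_contra hcon
    have h1 : H ≤ 1 := by omega
    have h2 : (H : ℝ) ≤ 1 := by exact_mod_cast h1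
    have h3 : (H : ℝ) = 1 := le_antisymm h2 hH1
    rw [h3, Real.log_one] at hlogH0
    exact lt_irrefl _ hlogH0
  have hsum : ∑ s ∈ S, ∑ s' ∈ S.filter (fun s' => s < s'),
      (((s' - s : ℕ) : ℝ) / Nat.totient (s' - s)) ≤ C₂ * (S.card : ℝ) ^ 2 * L3 Y := by
    have e1 := sum_image_sq K T hT (fun D => ((D : ℕ) : ℝ) / Nat.totient D)
    rw [← hS] at e1
    rw [e1, hSK]
    exact hsr K hK (by rw [← hSK]; exact hKc)
  have h1 : ∑ s ∈ S, ∑ s' ∈ S.filter (fun s' => s < s'),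
      (((Ioc (s + M) (s + M + H)).filter (fun n => n.Prime ∧ (n + (s' - s)).Prime)).card : ℝ) ≤
      C₁ * H / Real.log H ^ 2 * (C₂ * (S.card : ℝ) ^ 2 * L3 Y) := by
    calc ∑ s ∈ S, ∑ s' ∈ S.filter (fun s' => s < s'),
        (((Ioc (s + M) (s + M + H)).filter (fun n => n.Prime ∧ (n + (s' - s)).Prime)).card : ℝ)
        ≤ ∑ s ∈ S, ∑ s' ∈ S.filter (fun s' => s < s'), C₁ * H / Real.log H ^ 2 *
          (((s' - s : ℕ) : ℝ) / Nat.totient (s' - s)) := by
          apply Finset.sum_le_sum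
          intro s _
          apply Finset.sum_le_sum
          intro s' hs'
          have hlt := (mem_filter.1 hs').2
          refine (hps (s + M) H (s' - s) hH2 (by omega)).trans (le_of_eq ?_)
          ring
      _ = C₁ * H / Real.log H ^ 2 * ∑ s ∈ S, ∑ s' ∈ S.filter (fun s' => s < s'),
          (((s' - s : ℕ) : ℝ) / Nat.totient (s' - s)) := by
          rw [Finset.mul_sum]
          apply Finset.sum_congr rfl
          intro s _
          rw [Finset.mul_sum]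
      _ ≤ _ := by
          apply mul_le_mul_of_nonneg_left _ (by positivity)
          exact hsum
  have h2 : C₁ * H / Real.log H ^ 2 ≤ 16 * C₁ * H / Real.log Y ^ 2 := by
    rw [div_le_div_iff₀ (by positivity) (by positivity)]
    have h3 : Real.log Y ^ 2 ≤ 16 * Real.log H ^ 2 := by nlinarith
    have h4 := mul_le_mul_of_nonneg_left h3 (show 0 ≤ C₁ * H by positivity)
    linarith
  have hL3' : 1 ≤ L3 Y := hL3
  have h3 : C₁ * H / Real.log H ^ 2 * (C₂ * (S.card : ℝ) ^ 2 * L3 Y) ≤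
      16 * C₁ * H / Real.log Y ^ 2 * (C₂ * (S.card : ℝ) ^ 2 * L3 Y) :=
    mul_le_mul_of_nonneg_right h2 (by positivity)
  have h4 : (S.card : ℝ) * H ≤ H * (S.card : ℝ) ^ 2 * L3 Y / Real.log Y ^ 2 := by
    rw [le_div_iff₀ (by positivity)]
    calc (S.card : ℝ) * H * Real.log Y ^ 2 ≤ S.card * H * S.card :=
          mul_le_mul_of_nonneg_left hSlog (by positivity)
      _ = H * (S.card : ℝ) ^ 2 * 1 := by ring
      _ ≤ _ := mul_le_mul_of_nonneg_left hL3' (by positivity)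
  have h5 := sum_r1_sq S M H
  calc ∑ h ∈ Ioc M (M + H), (r1 S h : ℝ) ^ 2
      ≤ H * (S.card : ℝ) ^ 2 * L3 Y / Real.log Y ^ 2 +
        2 * (16 * C₁ * H / Real.log Y ^ 2 * (C₂ * (S.card : ℝ) ^ 2 * L3 Y)) := by linarith
    _ = (32 * C₁ * C₂ + 1) * H * (S.card : ℝ) ^ 2 * L3 Y / Real.log Y ^ 2 := by ring

/-- second moment for `T = 0` -/
theorem second_sq (A : ℕ) : ∃ C₃ : ℝ, 0 < C₃ ∧ ∀ᶠ X : ℕ in atTop, ∀ K : Finset ℕ,
    (∀ k ∈ K, k ≤ X) → (X : ℝ) / Real.log X ^ A ≤ K.card →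
    ∀ M H : ℕ, (X : ℝ) ^ (1 / 4 : ℝ) ≤ H →
    ∑ h ∈ Ioc M (M + H), (r1 (K.image (fun k => k ^ 2)) h : ℝ) ^ 2 ≤
      C₃ * H * (K.card : ℝ) ^ 2 * L3 X / Real.log X ^ 2 := by
  obtain ⟨C, hC, h⟩ := second_sqT A
  refine ⟨C, hC, ?_⟩
  filter_upwards [h] with X h1 K hK hKc M H hH
  have h2 := h1 K hK hKc 0 (fun k _ => Nat.zero_le _) M H hH
  simp only [Nat.sub_zero] at h2
  exact h2

/-- second moment, in the form of the assembly -/
theorem second_sq2 (A : ℕ) : ∃ C₃ : ℝ, 0 < C₃ ∧ ∀ᶠ X : ℕ in atTop, ∀ (K : Finset ℕ) (T : ℕ),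
    (∀ k ∈ K, k ≤ X ∧ T < k ^ 2) → (X : ℝ) / Real.log X ^ A ≤ K.card →
    ∀ M H : ℕ, (X : ℝ) ^ (1 / 4 : ℝ) ≤ H →
    ∑ h ∈ Ioc M (M + H), (r1 (K.image (fun k => k ^ 2 - T)) h : ℝ) ^ 2 ≤
      C₃ * H * (K.card : ℝ) ^ 2 * L3 X / Real.log X ^ 2 := by
  obtain ⟨C, hC, h⟩ := second_sqT A
  refine ⟨C, hC, ?_⟩
  filter_upwards [h] with X h1 K T hK hKc M H hH
  exact h1 K (fun k hk => (hK k hk).1) hKc T (fun k hk => (hK k hk).2.le) M H hH

end Pool.Agent.SQS
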