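import Mathlib
import Pool.Agent.SQS.Fm2
import Pool.Agent.SQS.Sm

set_option autoImplicit false

/-!
# SQS / All: primes `k ^ 2 - T + h`, `k` in an arbitrary set, `h` in a short window
-/

namespace Pool.Agent.SQS

open Finset Filter
open Pool.Agent.TSH (r1 L3 tendsto_L3 log_rpow pz)

/-- the set version -/
theorem core_sq (hGap : Pool.Agent.SI.St_Gap) (A : ℕ) :
    ∃ c : ℝ, 0 < c ∧ ∀ᶠ X : ℕ in atTop, ∀ (K : Finset ℕ) (T : ℕ), (∀ k ∈ K, k ≤ X ∧ T < k ^ 2) →
      (X : ℝ) / Real.log X ^ A ≤ K.card → ∀ M H : ℕ, (X : ℝ) ≤ H →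
      (T : ℝ) + M + H ≤ (X : ℝ) ^ 2 / Real.log X ^ (2 * A + 6) →
      c * H / L3 X ≤ (((Ioc M (M + H)).filter (fun h => c * K.card / Real.log X ≤
        (r1 (K.image (fun k => k ^ 2 - T)) h : ℝ))).card : ℝ) := by
  classical
  obtain ⟨c₁, hc₁, h1⟩ := first_sq hGap
  obtain ⟨C₃, hC₃, h2⟩ := second_sq2 A
  refine ⟨min (c₁ ^ 2 / (16 * C₃)) (c₁ / 4), by positivity, ?_⟩
  filter_upwards [h1 A, h2, eventually_ge_atTop 3,
    (Real.tendsto_log_atTop.comp tendsto_natCast_atTop_atTop).eventually_ge_atTop (2 : ℝ),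
    tendsto_L3.eventually_ge_atTop 1] with X h1 h2 hX3 hlog hL3 K T hK hKc M H hH hMH
  have hlog : 2 ≤ Real.log X := hlog
  have hL3 : 1 ≤ L3 X := hL3
  have hX' : (3 : ℝ) ≤ X := by exact_mod_cast hX3
  have hlog0 : 0 < Real.log X := by linarith
  have hK0 : (0 : ℝ) < K.card := lt_of_lt_of_le (by positivity) hKc
  have hH0 : (0 : ℝ) < H := by linarith
  have hH4 : (X : ℝ) ^ (1 / 4 : ℝ) ≤ H := by
    refine le_trans ?_ hH
    calc (X : ℝ) ^ (1 / 4 : ℝ) ≤ (X : ℝ) ^ (1 : ℝ) :=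
          Real.rpow_le_rpow_of_exponent_le (by linarith) (by norm_num)
      _ = X := Real.rpow_one _
  have hR := h1 K T hK hKc M H hH hMH
  have hQ := h2 K T hK hKc M H hH4
  have hpz := pz (Ioc M (M + H)) (fun h => (r1 (K.image (fun k => k ^ 2 - T)) h : ℝ))
    (m := c₁ * K.card / (2 * Real.log X)) hR (by positivity) (by
      rw [Nat.card_Ioc, Nat.add_sub_cancel_left]
      apply le_of_eq
      field_simp) (by positivity) hQ (by positivity)
  have h3 : min (c₁ ^ 2 / (16 * C₃)) (c₁ / 4) * H / L3 X ≤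
      (c₁ * K.card * H / Real.log X) ^ 2 /
        (4 * (C₃ * H * (K.card : ℝ) ^ 2 * L3 X / Real.log X ^ 2)) := by
    calc min (c₁ ^ 2 / (16 * C₃)) (c₁ / 4) * H / L3 X ≤ c₁ ^ 2 / (4 * C₃) * H / L3 X := by
          apply div_le_div_of_nonneg_right _ (by linarith)
          apply mul_le_mul_of_nonneg_right _ hH0.le
          refine (min_le_left _ _).trans ?_
          apply div_le_div_of_nonneg_left (by positivity) (by positivity)
          linarith
      _ = _ := by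
          field_simp
  refine h3.trans (hpz.trans ?_)
  norm_cast
  apply Finset.card_le_card
  intro h hh
  obtain ⟨h4, h5⟩ := mem_filter.1 hh
  rw [mem_filter]
  refine ⟨h4, le_trans ?_ h5⟩
  calc min (c₁ ^ 2 / (16 * C₃)) (c₁ / 4) * K.card / Real.log X ≤
        c₁ / 2 * K.card / Real.log X := by
        apply div_le_div_of_nonneg_right _ hlog0.le
        apply mul_le_mul_of_nonneg_right _ hK0.le
        exact (min_le_right _ _).trans (by linarith)
    _ = c₁ * K.card / (2 * Real.log X) := by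
        field_simp

open Classical in
/-- few `k` with `k ^ 2 ≤ T` -/
theorem card_small (K : Finset ℕ) (T : ℕ) {U : ℝ} (hU : 0 ≤ U) (hT : (T : ℝ) ≤ U ^ 2) :
    ((K.filter (fun k => ¬ T < k ^ 2)).card : ℝ) ≤ U + 1 := by
  have h1 : K.filter (fun k => ¬ T < k ^ 2) ⊆ range (⌊U⌋₊ + 1) := by
    intro k hk
    have e1 := (mem_filter.1 hk).2
    have e2 : ((k : ℝ)) ^ 2 ≤ U ^ 2 := by
      refine le_trans ?_ hT
      exact_mod_cast not_lt.1 e1
    have e3 : (k : ℝ) ≤ U := (pow_le_pow_iff_left₀ (Nat.cast_nonneg k) hU (by norm_num)).1 e2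
    have := Nat.le_floor e3
    rw [mem_range]
    omega
  have h2 := Finset.card_le_card h1
  rw [Finset.card_range] at h2
  have h3 : ((K.filter (fun k => ¬ T < k ^ 2)).card : ℝ) ≤ (⌊U⌋₊ : ℝ) + 1 := by
    exact_mod_cast h2
  have h4 := Nat.floor_le hU
  linarith

open Classical in
/-- **Primes `k ^ 2 - T + h`**, `k` in an arbitrary set which is not too thin, `h` in a window. -/
theorem squares (hGap : Pool.Agent.SI.St_Gap) (ε : ℝ) (hε : 0 < ε) (C : ℕ) :
    ∃ c : ℝ, 0 < c ∧ ∀ᶠ X : ℕ in atTop, ∀ K : Finset ℕ, (∀ k ∈ K, k ≤ X) →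
      (X : ℝ) / Real.log X ^ C ≤ K.card → ∀ M H T : ℕ, (X : ℝ) ≤ H →
      (T : ℝ) + M + H ≤ (X : ℝ) ^ (2 - ε) →
      c * H / Real.log (Real.log (Real.log X)) ≤
        (((Ioc M (M + H)).filter (fun h => c * K.card / Real.log X ≤
          ((K.filter (fun k => T < k ^ 2 ∧ (k ^ 2 - T + h).Prime)).card : ℝ))).card : ℝ) := by
  obtain ⟨c₀, hc₀, h1⟩ := core_sq hGap (C + 1)
  refine ⟨c₀ / 2, by positivity, ?_⟩
  have hlogT : Tendsto (fun X : ℕ => Real.log X) atTop atTop :=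
    Real.tendsto_log_atTop.comp tendsto_natCast_atTop_atTop
  filter_upwards [h1, eventually_ge_atTop 3, hlogT.eventually_ge_atTop (2 : ℝ),
    tendsto_L3.eventually_ge_atTop 1, log_rpow 1 (2 * (C + 1) + 6) ε hε,
    log_rpow 4 C (ε / 2) (by positivity), log_rpow 4 C 1 one_pos] with
    X h1 hX3 hlog hL3 hpow hpow2 hpow3 K hK hKc M H T hH hMH
  have hX' : (3 : ℝ) ≤ X := by exact_mod_cast hX3
  have hX0 : (0 : ℝ) < X := by linarith
  have hL3' : 1 ≤ Real.log (Real.log (Real.log X)) := hL3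
  obtain ⟨l, hl⟩ : ∃ l : ℝ, l = Real.log X := ⟨_, rfl⟩
  have e00 : L3 X = Real.log (Real.log l) := by rw [hl]; rfl
  have hl0 : 0 < l := by rw [hl]; linarith
  rw [← hl] at hlog hKc hpow hpow2 hpow3 h1 hL3' ⊢
  obtain ⟨K', hK'⟩ : ∃ K' : Finset ℕ, K' = K.filter (fun k => T < k ^ 2) := ⟨_, rfl⟩
  have hXl : X / l ^ C ≤ K.card := hKc
  have hU : ((K.filter (fun k => ¬ T < k ^ 2)).card : ℝ) ≤ (X : ℝ) ^ (1 - ε / 2) + 1 := by
    apply card_small K T (by positivity)
    rw [← Real.rpow_natCast, ← Real.rpow_mul hX0.le]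
    have e1 : (1 - ε / 2) * ((2 : ℕ) : ℝ) = 2 - ε := by
      push_cast
      ring
    rw [e1]
    have e2 : (0 : ℝ) ≤ M := Nat.cast_nonneg M
    have e3 : (0 : ℝ) ≤ H := Nat.cast_nonneg H
    linarith
  have hhalf : (X : ℝ) ^ (1 - ε / 2) + 1 ≤ K.card / 2 := by
    have e1 : 4 * (X : ℝ) ^ (1 - ε / 2) ≤ X / l ^ C := by
      rw [le_div_iff₀ (by positivity)]
      calc 4 * (X : ℝ) ^ (1 - ε / 2) * l ^ C = (X : ℝ) ^ (1 - ε / 2) * (4 * l ^ C) := by ring
        _ ≤ (X : ℝ) ^ (1 - ε / 2) * (X : ℝ) ^ (ε / 2) :=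
            mul_le_mul_of_nonneg_left hpow2 (by positivity)
        _ = X := by
            rw [← Real.rpow_add hX0]
            have : (1 - ε / 2 + ε / 2 : ℝ) = 1 := by ring
            rw [this, Real.rpow_one]
    have e2 : 4 ≤ X / l ^ C := by
      rw [le_div_iff₀ (by positivity)]
      rw [Real.rpow_one] at hpow3
      exact hpow3
    linarith
  have hsplit : (K.card : ℝ) = (K'.card : ℝ) + ((K.filter (fun k => ¬ T < k ^ 2)).card : ℝ) := by
    rw [hK']
    have := Finset.card_filter_add_card_filter_not (s := K) (fun k => T < k ^ 2)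
    exact_mod_cast this.symm
  have hKK : (K.card : ℝ) ≤ 2 * K'.card := by linarith
  have hKc' : (X : ℝ) / l ^ (C + 1) ≤ K'.card := by
    have e1 : (X : ℝ) / l ^ (C + 1) = X / l ^ C / l := by
      rw [pow_succ, div_div]
    rw [e1]
    have e2 : X / l ^ C / l ≤ X / l ^ C / 2 :=
      div_le_div_of_nonneg_left (by positivity) (by norm_num) hlog
    linarith
  have hbound : (T : ℝ) + M + H ≤ (X : ℝ) ^ 2 / l ^ (2 * (C + 1) + 6) := by
    refine hMH.trans ?_
    rw [le_div_iff₀ (by positivity)]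
    rw [one_mul] at hpow
    calc (X : ℝ) ^ (2 - ε) * l ^ (2 * (C + 1) + 6) ≤ (X : ℝ) ^ (2 - ε) * (X : ℝ) ^ ε :=
          mul_le_mul_of_nonneg_left hpow (by positivity)
      _ = (X : ℝ) ^ 2 := by
          rw [← Real.rpow_add hX0]
          have : (2 - ε + ε : ℝ) = 2 := by ring
          rw [this]
          norm_cast
  have h2 := h1 K' T
    (by
      intro k hk
      rw [hK'] at hk
      obtain ⟨e1, e2⟩ := mem_filter.1 hk
      exact ⟨hK k e1, e2⟩)
    hKc' M H hH hbound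
  rw [e00] at h2
  have hH0 : (0 : ℝ) ≤ H := Nat.cast_nonneg H
  have h3 : c₀ / 2 * H / Real.log (Real.log l) ≤ c₀ * H / Real.log (Real.log l) := by
    apply div_le_div_of_nonneg_right _ (by linarith)
    apply mul_le_mul_of_nonneg_right _ hH0
    linarith
  refine h3.trans (h2.trans ?_)
  norm_cast
  apply Finset.card_le_card
  intro h hh
  obtain ⟨h4, h5⟩ := mem_filter.1 hh
  rw [mem_filter]
  refine ⟨h4, ?_⟩
  have h6 : r1 (K'.image (fun k => k ^ 2 - T)) h ≤
      (K.filter (fun k => T < k ^ 2 ∧ (k ^ 2 - T + h).Prime)).card := by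
    unfold r1
    have e1 : (K'.image (fun k => k ^ 2 - T)).filter (fun s => (s + h).Prime) ⊆
        (K.filter (fun k => T < k ^ 2 ∧ (k ^ 2 - T + h).Prime)).image (fun k => k ^ 2 - T) := by
      intro s hs
      obtain ⟨e2, e3⟩ := mem_filter.1 hs
      obtain ⟨k, hk, rfl⟩ := Finset.mem_image.1 e2
      rw [hK'] at hk
      obtain ⟨e4, e5⟩ := mem_filter.1 hk
      exact Finset.mem_image.2 ⟨k, mem_filter.2 ⟨e4, e5, e3⟩, rfl⟩
    exact (Finset.card_le_card e1).trans Finset.card_image_le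
  have h7 : (r1 (K'.image (fun k => k ^ 2 - T)) h : ℝ) ≤
      ((K.filter (fun k => T < k ^ 2 ∧ (k ^ 2 - T + h).Prime)).card : ℕ) := by
    exact_mod_cast h6
  refine le_trans ?_ (h5.trans h7)
  apply div_le_div_of_nonneg_right _ hl0.le
  have := mul_le_mul_of_nonneg_left hKK hc₀.le
  linarith

end Pool.Agent.SQS
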